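import Pool.Agent.Helper94.LD.C34

/-!
CO13: the condition `c2` of the concrete system.
-/

set_option autoImplicit false

namespace Pool.Agent.Helper94.LD

open Pool.Agent.Helper56.LD

lemma not_isAux_of_isMain {l : Lab} (h : IsMain l) : ¬ IsAux l := by
  rintro ⟨q, hq⟩
  obtain ⟨τ, hτ⟩ := h
  rw [hτ] at hq
  exact Sum.inl_ne_inr hq

lemma isAux_of_not_isMain {l : Lab} (h : ¬ IsMain l) : IsAux l := by
  rcases isMain_or_inr l with h1 | ⟨κ, t, h1⟩
  · exact absurd h1 h
  · exact ⟨(κ, t), h1⟩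

lemma isN_unique {n : ℕ} {a : ℕ → Lab} {N N' : ℕ} (h : IsN n a N) (h' : IsN n a N') :
    N = N' := by
  rcases lt_trichotomy N N' with h1 | h1 | h1
  · exact absurd (h'.2.2 N h.1 h1) (not_isAux_of_isMain h.2.1)
  · exact h1
  · exact absurd (h.2.2 N' h'.1 h1) (not_isAux_of_isMain h'.2.1)

lemma auxOK_congr {n : ℕ} {κ : Bool} {τ : Fin 3} {e e' : ℕ → Lab} {L : ℕ} (hL : 1 ≤ L)
    (hagree : ∀ j, j < L → e' j = e j) (hnu : ∀ ν, IsNu e ν → ν < L)
    (h : AuxOK n κ τ e) : AuxOK n κ τ e' := by
  have h0 : e' 0 = e 0 := hagree 0 hL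
  rcases h with h | h | ⟨ν, k, h1, h2, h3⟩
  · left
    rw [h0]; exact h
  · right; left
    rw [h0]; exact h
  · right; right
    have hν := hnu ν h1
    refine ⟨ν, k, ⟨?_, fun j hj => ?_⟩, h2, ?_⟩
    · rw [hagree ν hν]; exact h1.1
    · rw [hagree j (by omega)]; exact h1.2 j hj
    · rcases h3 with h3 | ⟨h4, h5, h6, h7, h8⟩
      · exact Or.inl h3
      · refine Or.inr ⟨h4, h5, h6, fun j hj => ?_, ?_⟩
        · rw [hagree j (by omega)]; exact h7 j hj
        · rw [hagree _ (by omega)]; exact h8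

theorem stmtC2 (hES : StmtES) (hMu : StmtMu) (hExt : StmtExt) : StmtC2 := by
  classical
  obtain ⟨-, -, hup, hkind, hglue⟩ := hES
  intro n a hn ha e he k
  obtain ⟨heE, heN, heA⟩ := he
  by_cases hex : ∃ N, IsN n a N
  · obtain ⟨N, hN⟩ := hex
    have hMC := heN N hN
    obtain ⟨hN1, hN2, hN3⟩ := id hN
    obtain ⟨-, hmuMain, -, -⟩ := hMu a ha N hN2
    have hL0 : ∃ M : ℕ, M ≤ N ∧ (∀ l, M ≤ l → e l = mu N a l) := by
      rcases Nat.lt_or_ge 4 N with h4 | h4
      · have hi : ∃ i : ℕ, 4 ^ (i + 1) < N ∧ N ≤ 4 ^ (i + 2) := by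
          have hex2 : ∃ i : ℕ, N ≤ 4 ^ (i + 2) := by
            refine ⟨N, ?_⟩
            have h5 : N < 4 ^ N := Nat.lt_pow_self (by norm_num)
            have h6 : 4 ^ N ≤ 4 ^ (N + 2) := Nat.pow_le_pow_right (by norm_num) (by omega)
            omega
          refine ⟨Nat.find hex2, ?_, Nat.find_spec hex2⟩
          by_contra hcon
          push Not at hcon
          rcases Nat.eq_zero_or_pos (Nat.find hex2) with h6 | h6
          · rw [h6] at hcon
            omega
          · have h7 := Nat.find_min hex2 (m := Nat.find hex2 - 1) (by omega)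
            apply h7
            have h8 : Nat.find hex2 - 1 + 2 = Nat.find hex2 + 1 := by omega
            rw [h8]
            exact hcon
        obtain ⟨i, hi1, hi2⟩ := hi
        refine ⟨4 ^ i, ?_, (hMC.2 i hi1 hi2).1⟩
        have : 4 ^ i ≤ 4 ^ (i + 1) := Nat.pow_le_pow_right (by norm_num) (by omega)
        omega
      · exact ⟨0, Nat.zero_le _, fun l _ => hMC.1 h4 l⟩
    obtain ⟨M, hM, hMe⟩ := hL0
    set L := k + N + 1 with hL
    refine ⟨16 * L + N + 5, ?_⟩
    intro a' ha' hagree
    have hmuEq : ∀ l, l ≤ L → mu N a' l = mu N a l := by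
      intro l hl
      unfold mu
      rw [hagree]
      rcases le_total (16 * l + 4) N with h | h
      · rw [max_eq_right h]; omega
      · rw [max_eq_left h]; omega
    have hN2' : IsMain (a' N) := by rw [hagree N (by omega)]; exact hN2
    have hN' : IsN n a' N :=
      ⟨hN1, hN2', fun j h1 h2 => by rw [hagree j (by omega)]; exact hN3 j h1 h2⟩
    obtain ⟨hmu'E, -, -, -⟩ := hMu a' ha' N hN2'
    have hLeq : e L = mu N a' L := by rw [hmuEq L (le_refl _), hMe L (by omega)]
    set e' : ℕ → Lab := fun j => if j < L then e j else mu N a' j with he'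
    have he'1 : ∀ j, j < L → e' j = e j := fun j hj => by rw [he']; exact if_pos hj
    have he'2 : ∀ j, L ≤ j → e' j = mu N a' j := fun j hj => by
      rw [he']; exact if_neg (by omega)
    have hmu' : ∀ l, e l = mu N a l → e' l = mu N a' l := by
      intro l hl
      rcases Nat.lt_or_ge l L with h | h
      · rw [he'1 l h, hl, hmuEq l h.le]
      · exact he'2 l h
    have hQQ : ∀ i, QQ i N a e → QQ i N a' e' := by
      intro i hq l hl hm
      rcases Nat.lt_or_ge l L with h | h
      · rw [he'1 l h] at hm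
        exact hmu' l (hq l hl hm)
      · exact he'2 l h
    refine ⟨e', ⟨hglue e heE (mu N a') hmu'E L hLeq, ?_, ?_⟩, fun j hj => he'1 j (by omega)⟩
    · intro N'' hN''
      have : N'' = N := isN_unique hN'' hN'
      subst this
      refine ⟨fun h4 l => hmu' l (hMC.1 h4 l), fun i hi1 hi2 => ?_⟩
      obtain ⟨h1, h2⟩ := hMC.2 i hi1 hi2
      have h4i : 4 ^ i < L := by
        have : 4 ^ i ≤ 4 ^ (i + 1) := Nat.pow_le_pow_right (by norm_num) (by omega)
        omega
      refine ⟨fun l hl => hmu' l (h1 l hl), ?_⟩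
      rcases h2 with ⟨h3, h5⟩ | ⟨h3, h5, h6⟩
      · left
        refine ⟨h3, ?_⟩
        rcases h5 with h5 | h5 | h5
        · exact Or.inl (hQQ i h5)
        · exact Or.inr (Or.inl h5)
        · refine Or.inr (Or.inr ?_)
          rw [he'1 _ (by omega)]
          exact h5
      · right
        refine ⟨h3, hQQ i h5, ?_⟩
        rw [he'1 _ ?_]
        · exact h6
        · apply max_lt
          · have : 4 ^ i / 4 ≤ 4 ^ i := Nat.div_le_self _ _
            omega
          · omega
    · intro κ τ h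
      rw [hagree n (by omega)] at h
      refine auxOK_congr (L := L) (by omega) he'1 ?_ (heA κ τ h)
      intro ν hν
      by_contra hcon
      have h1 : IsAux (e (L - 1)) := hν.2 (L - 1) (by omega)
      have h2 : IsMain (e (L - 1)) := by
        rw [hMe (L - 1) (by omega)]
        exact hmuMain _
      exact not_isAux_of_isMain h2 h1
  · have haux : ∀ j, n ≤ j → IsAux (a j) := by
      intro j hj
      by_contra hcon
      have h1 : IsMain (a j) := by
        by_contra h2
        exact hcon (isAux_of_not_isMain h2)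
      have hex2 : ∃ j, n ≤ j ∧ IsMain (a j) := ⟨j, hj, h1⟩
      apply hex
      refine ⟨Nat.find hex2, (Nat.find_spec hex2).1, (Nat.find_spec hex2).2, fun i hi1 hi2 => ?_⟩
      apply isAux_of_not_isMain
      intro h3
      exact Nat.find_min hex2 hi2 ⟨hi1, h3⟩
    obtain ⟨k', hk'1, hk'2, hk'3⟩ : ∃ k' : ℕ, 1 ≤ k' ∧ k ≤ k' ∧ ∀ ν, IsNu e ν → ν < k' := by
      by_cases hnu : ∃ ν, IsNu e ν
      · obtain ⟨ν, hν⟩ := hnu
        refine ⟨k + ν + 1, by omega, by omega, fun ν' hν' => ?_⟩
        by_contra hcon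
        exact not_isAux_of_isMain hν.1 (hν'.2 ν (by omega))
      · exact ⟨k + 1, by omega, by omega, fun ν hν => absurd ⟨ν, hν⟩ hnu⟩
    obtain ⟨K0, hK0⟩ := hExt k'
    refine ⟨max K0 (n + 1), ?_⟩
    intro a' ha' hagree
    have hn1 : n < max K0 (n + 1) := lt_of_lt_of_le (Nat.lt_succ_self n) (le_max_right _ _)
    by_cases hex' : ∃ N', IsN n a' N'
    · obtain ⟨N', hN'⟩ := hex'
      have hge : max K0 (n + 1) ≤ N' := by
        by_contra hcon
        push Not at hcon
        have h1 := haux N' hN'.1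
        rw [← hagree N' hcon] at h1
        exact not_isAux_of_isMain hN'.2.1 h1
      obtain ⟨e', he'E, he'M, he'k, he'm⟩ := hK0 N' (le_trans (le_max_left _ _) hge) a' ha'
        hN'.2.1 e heE
      refine ⟨e', ⟨he'E, ?_, ?_⟩, fun j hj => he'k j (by omega)⟩
      · intro N'' hN''
        rw [isN_unique hN'' hN']
        exact he'M
      · intro κ τ h
        rw [hagree n hn1] at h
        exact auxOK_congr hk'1 he'k hk'3 (heA κ τ h)
    · refine ⟨e, ⟨heE, fun N' hN' => absurd ⟨N', hN'⟩ hex', fun κ τ h => heA κ τ ?_⟩,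
        fun j _ => rfl⟩
      rw [← hagree n hn1]
      exact h

end Pool.Agent.Helper94.LD
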