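import Pool.Agent.Helper56.LD.Goals

/-!
CO15, CO16: the conditions `c3` and `c4` of the concrete system.
-/

set_option autoImplicit false

namespace Pool.Agent.Helper94.LD

open Pool.Agent.Helper56.LD

lemma isMain_inl (τ : Fin 4) : IsMain (Sum.inl τ) := ⟨τ, rfl⟩

lemma not_isMain_inr (q : Bool × Fin 3) : ¬ IsMain (Sum.inr q) := by
  rintro ⟨τ, h⟩
  exact Sum.inr_ne_inl h

lemma isMain_or_inr (l : Lab) : IsMain l ∨ ∃ κ t, l = Sum.inr (κ, t) := by
  rcases l with τ | ⟨κ, t⟩
  · exact Or.inl ⟨τ, rfl⟩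
  · exact Or.inr ⟨κ, t, rfl⟩

theorem stmtC3 (hES : StmtES) (hInv : StmtMainInv) (hTail : StmtTail) : StmtC3 := by
  obtain ⟨-, -, hup, hkind, -⟩ := hES
  intro u n n' a hn hn' ha e he hUB
  obtain ⟨heE, s, hs, hEqv⟩ := he
  obtain ⟨hsE, hsN, hsA⟩ := hs
  have hUBs : UB (blk u n (ltr u n (a n))) s (n + 1) := (hEqv (n + 1)).1.1 hUB
  have hnn' : n ≤ n' := by omega
  rcases isMain_or_inr (a n) with hmain | ⟨κ, τ, hκ⟩
  · exfalso
    obtain ⟨τ, hτ⟩ := id hmain
    have h1 : IsMain (a n') := hup a ha n n' hnn' hmain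
    have h2 : IsN n' a n' := ⟨le_refl _, h1, fun j h3 h4 => absurd h3 (by omega)⟩
    obtain ⟨k, hk, hk4, -⟩ := hTail n'
    have h3 : IsMain (s n) := hk a s ha h1 (hsN n' h2) n (by omega)
    obtain ⟨σ, hσ⟩ := h3
    apply hUBs n hn (by omega)
    rw [hτ, hσ]
    rfl
  · have hb : ∀ x : ℕ → Lab, x ∈ ES → UB (blk u n (ltr u n (a n))) x (n + 1) →
        ∃ t, x 0 = Sum.inr (!κ, t) := by
      intro x hx hUBx
      have h1 := hUBx n hn (by omega)
      rw [hκ] at h1
      rcases isMain_or_inr (x n) with ⟨σ, hσ⟩ | ⟨κ', t, ht⟩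
      · exact absurd (by rw [hσ]; trivial) h1
      · have h2 : κ' ≠ κ := by
          intro h3
          apply h1
          rw [ht]
          exact ⟨h3, Or.inl (le_refl _)⟩
        have h3 : κ' = !κ := by
          cases κ <;> cases κ' <;> simp_all
        rw [h3] at ht
        exact hkind x hx 0 n (!κ) t (Nat.zero_le _) ht
    obtain ⟨t0, ht0⟩ := hb e heE hUB
    obtain ⟨t1, ht1⟩ := hb s hsE hUBs
    refine ⟨heE, ?_, ?_⟩
    · intro N hN
      refine hInv N a s e ha hN.2.1 ?_ (hsN N hN)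
      intro j hj
      by_cases h4 : UB (blk u n (ltr u n (a n))) e j
      · exfalso
        have h5 := (hEqv j).1.1 h4
        rcases Nat.eq_zero_or_pos j with h6 | h6
        · rw [h6, ht0, ht1] at hj
          exact hj.elim (not_isMain_inr _) (not_isMain_inr _)
        · have h7 := h4 j h6 (le_refl _)
          have h8 := h5 j h6 (le_refl _)
          rw [hκ] at h7 h8
          rcases hj with ⟨σ, hσ⟩ | ⟨σ, hσ⟩
          · exact h8 (by rw [hσ]; trivial)
          · exact h7 (by rw [hσ]; trivial)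
      · exact ((hEqv j).2 h4).symm
    · intro κ' τ' h
      obtain ⟨t', ht'⟩ := hkind a ha n n' κ' τ' hnn' h
      rw [hκ] at ht'
      have h4 : κ = κ' := by
        injection ht' with h5
        exact (Prod.ext_iff.1 h5).1
      right; left
      exact ⟨t0, by rw [← h4]; exact ht0⟩

theorem stmtC4 (_hES : StmtES) (hTail : StmtTail) : StmtC4 := by
  intro u n n' a hn hn' ha
  by_cases hex : ∃ N, IsN n' a N
  · obtain ⟨N, hN1, hN2, hN3⟩ := hex
    obtain ⟨k, hk, -, -⟩ := hTail N
    refine ⟨N + k + 3, ?_⟩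
    intro a' ha' hagree e he hUB
    exfalso
    obtain ⟨heE, heN, heA⟩ := he
    have h1 : IsN n' a' N := by
      refine ⟨hN1, ?_, fun j h2 h3 => ?_⟩
      · rw [hagree N (by omega)]; exact hN2
      · rw [hagree j (by omega)]; exact hN3 j h2 h3
    have hmain : ∀ j, k ≤ j → IsMain (e j) := hk a' e ha' h1.2.1 (heN N h1)
    rcases isMain_or_inr (a n) with ⟨τ, hτ⟩ | ⟨κ, τ, hκ⟩
    · have h2 : par (k + 1) = par n ∨ par (k + 2) = par n := by
        unfold par
        rcases Nat.mod_two_eq_zero_or_one k with h | h <;>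
        rcases Nat.mod_two_eq_zero_or_one n with h' | h'
        · right; rw [Nat.add_mod, h, h']
        · left; rw [Nat.add_mod, h, h']
        · left; rw [Nat.add_mod, h, h']
        · right; rw [Nat.add_mod, h, h']
      rcases h2 with h2 | h2
      · obtain ⟨σ, hσ⟩ := hmain (k + 1) (by omega)
        apply hUB (k + 1) (by omega) (by omega)
        rw [hτ, hσ]
        exact h2
      · obtain ⟨σ, hσ⟩ := hmain (k + 2) (by omega)
        apply hUB (k + 2) (by omega) (by omega)
        rw [hτ, hσ]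
        exact h2
    · obtain ⟨σ, hσ⟩ := hmain (k + 1) (by omega)
      apply hUB (k + 1) (by omega) (by omega)
      rw [hκ, hσ]
      trivial
  · refine ⟨n' + 1, ?_⟩
    intro a' ha' hagree e he _
    obtain ⟨heE, heN, heA⟩ := he
    refine ⟨heE, fun N hN => absurd ⟨N, hN⟩ hex, fun κ τ h => heA κ τ ?_⟩
    rw [hagree n' (by omega)]
    exact h

end Pool.Agent.Helper94.LD
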