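import Pool.Agent.Helper56.LD.Goals
import Pool.Agent.Helper56.LD.Basics

/-!
SM6: lower semicontinuity at the core.
-/

set_option autoImplicit false

namespace Pool.Agent.Helper94.LD

open Set Filter Topology Pool.Agent.Helper56.LD

section gen

variable {L Ω : Type} [DecidableEq L] [DecidableEq Ω] [TopologicalSpace L] [DiscreteTopology L]

lemma exists_right (lt : ℕ → L → Ω) {U : Set (Amb L Ω)} (hU : IsOpen U) {n : ℕ} {e : ℕ → L}
    {w : ℝ} (hw : w < 1) (h : pt lt n e w ∈ U) :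
    ∃ w1, w < w1 ∧ w1 ≤ 1 ∧ pt lt n e w1 ∈ U := by
  have hc : Continuous fun v : ℝ => pt lt n e v :=
    (continuous_pt lt n).comp (Continuous.prodMk_right e)
  obtain ⟨δ, hδ, hb⟩ := Metric.isOpen_iff.1 (hU.preimage hc) w h
  refine ⟨min 1 (w + δ / 2), ?_, min_le_left _ _, ?_⟩
  · exact lt_min hw (by linarith)
  · apply hb
    rw [Metric.mem_ball, Real.dist_eq, abs_lt]
    constructor
    · have : w < min 1 (w + δ / 2) := lt_min hw (by linarith)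
      linarith
    · have : min 1 (w + δ / 2) ≤ w + δ / 2 := min_le_right _ _
      linarith

/-- a nearby point from which the height condition is stable -/
lemma exists_stable (lt : ℕ → L → Ω) {U : Set (Amb L Ω)} (hU : IsOpen U) {b : ℕ → L → Prop}
    {n : ℕ} {e : ℕ → L} {w c : ℝ} (hw : w ∈ Icc (0 : ℝ) 1) (h : pt lt n e w ∈ U)
    (hb : UB b e n) (hc : c ≤ hgt n w) :
    ∃ n1 w1, n1 ≤ n ∧ w1 ∈ Icc (0 : ℝ) 1 ∧ pt lt n1 e w1 ∈ U ∧ UB b e n1 ∧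
      (c < hgt n1 w1 ∨ hgt n1 w1 = 1) := by
  rcases hw.2.eq_or_lt with h1 | h1
  · subst h1
    rcases Nat.eq_zero_or_pos n with hn | hn
    · subst hn
      refine ⟨0, 1, le_rfl, hw, h, hb, Or.inr ?_⟩
      rw [hgt_one]
      norm_num
    · obtain ⟨m, rfl⟩ : ∃ m, n = m + 1 := ⟨n - 1, by omega⟩
      rw [← pt_zero] at h
      obtain ⟨w1, h2, h3, h4⟩ := exists_right lt hU (by norm_num) h
      refine ⟨m, w1, by omega, ⟨h2.le, h3⟩, h4, hb.mono (by omega), Or.inl ?_⟩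
      have h5 : hgt m 0 < hgt m w1 := hgt_lt_of_lt h2
      rw [hgt_zero_succ] at h5
      linarith
  · obtain ⟨w1, h2, h3, h4⟩ := exists_right lt hU h1 h
    refine ⟨n, w1, le_rfl, ⟨hw.1.trans h2.le, h3⟩, h4, hb, Or.inl ?_⟩
    have := hgt_lt_of_lt (n := n) h2
    linarith

lemma exists_depth (lt : ℕ → L → Ω) {U : Set (Amb L Ω)} (hU : IsOpen U) {n : ℕ} {e : ℕ → L}
    {w : ℝ} (h : pt lt n e w ∈ U) :
    ∃ k, n < k ∧ ∀ e' : ℕ → L, (∀ j, j < k → e' j = e j) → pt lt n e' w ∈ U := by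
  have hc : Continuous fun x : ℕ → L => pt lt n x w :=
    (continuous_pt lt n).comp (Continuous.prodMk_left w)
  obtain ⟨I, u, hu, hsub⟩ := isOpen_pi_iff.1 (hU.preimage hc) e h
  refine ⟨max (n + 1) (I.sup id + 1), by omega, fun e' he' => hsub ?_⟩
  intro j hj
  rw [he' j]
  · exact (hu j hj).2
  · have : j ≤ I.sup id := Finset.le_sup (f := id) hj
    omega

end gen

theorem stmtLSCcore : StmtLSCcore := by
  intro L Ω _ _ _ _ _ _ Z ω τ hτ U hU hne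
  have hne' : (YS Z.lt (Z.bl ⊤ ω) Z.E Z.E τ ∩ U).Nonempty := by
    obtain ⟨y, hy, hyU⟩ := hne
    obtain ⟨z, hzU, hz⟩ := mem_closure_iff.1 hy U hU hyU
    exact ⟨z, hz, hzU⟩
  obtain ⟨y, hy, hyU⟩ := hne'
  obtain ⟨n, e, w, hw, rfl, hUB, hor⟩ := hy
  have he : e ∈ Z.E ∧ 1 - 2 * τ ≤ hgt n w := by
    rcases hor with ⟨h1, h2⟩ | ⟨h1, h2⟩
    · exact ⟨h1, h2⟩
    · have := hgt_pos (n := n) hw.1
      exact ⟨h1.1, by linarith⟩
  obtain ⟨n1, w1, hn1, hw1, hU1, hUB1, hst⟩ := exists_stable Z.lt hU hw hyU hUB he.2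
  obtain ⟨ε, hε, hεh⟩ : ∃ ε > 0, ∀ τ' ∈ Icc (0 : ℝ) 1, |τ' - τ| < ε →
      1 - 2 * τ' ≤ hgt n1 w1 := by
    rcases hst with h | h
    · refine ⟨(hgt n1 w1 - (1 - 2 * τ)) / 2, by linarith, fun τ' _ h' => ?_⟩
      have := (abs_lt.1 h').1
      linarith
    · refine ⟨1, one_pos, fun τ' hτ' _ => ?_⟩
      rw [h]
      linarith [hτ'.1]
  obtain ⟨k, hk, hkU⟩ := exists_depth Z.lt hU hU1
  obtain ⟨n0, hn0⟩ := Z.c5 k
  refine ⟨max n0 (n1 + 1), ε, hε, fun τ' hτ' hd => ⟨?_, ?_⟩⟩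
  · exact ⟨_, subset_closure ⟨n1, e, w1, hw1, rfl, hUB1, Or.inl ⟨he.1, hεh τ' hτ' hd⟩⟩, hU1⟩
  · intro m m' hm hm' a ha
    have h1 : n0 ≤ m' := by
      have := le_max_left n0 (n1 + 1)
      omega
    have h2 : n1 < m := by
      have := le_max_right n0 (n1 + 1)
      omega
    obtain ⟨e', he'S, he'⟩ := hn0 m' h1 a ha e he.1
    refine ⟨_, subset_closure ⟨n1, e', w1, hw1, rfl, ?_, Or.inl ⟨he'S, hεh τ' hτ' hd⟩⟩,
      hkU e' fun j hj => he' j hj⟩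
    intro j hj1 hj2 hbl
    rw [he' j (by omega)] at hbl
    exact hUB1 j hj1 hj2 (Z.b3 m ω j (e j) (by omega) hbl)

end Pool.Agent.Helper94.LD
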