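import Pool.Agent.Helper56.LD.Goals
import Pool.Agent.Helper56.LD.Basics

/-!
SM1, SM2, SM3: the value is well defined, is a nonempty closed subset of the space, and there is
no fixed point.
-/

set_option autoImplicit false

namespace Pool.Agent.Helper94.LD

open Set Filter Topology Pool.Agent.Helper56.LD

section gen

variable {L Ω : Type} [DecidableEq L] [DecidableEq Ω]

lemma GS_zero (lt : ℕ → L → Ω) (b : ℕ → L → Prop) (E S : Set (ℕ → L)) :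
    GS lt b E S 0 = closure {y | ∃ e ∈ S, y = pt lt 0 e 1} := by
  unfold GS
  rw [GS_zero_subset]

lemma YS_one (lt : ℕ → L → Ω) (b : ℕ → L → Prop) {E S : Set (ℕ → L)} (hS : S ⊆ E) :
    YS lt b E S 1 = {y | ∃ (n : ℕ) (e : ℕ → L) (w : ℝ), w ∈ Icc (0 : ℝ) 1 ∧ y = pt lt n e w ∧
      UB b e n ∧ e ∈ sat b E S} := by
  ext y
  constructor
  · rintro ⟨n, e, w, hw, hy, hU, ⟨h, -⟩ | ⟨h, -⟩⟩
    · exact ⟨n, e, w, hw, hy, hU, subset_sat hS h⟩
    · exact ⟨n, e, w, hw, hy, hU, h⟩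
  · rintro ⟨n, e, w, hw, hy, hU, h⟩
    refine ⟨n, e, w, hw, hy, hU, Or.inr ⟨h, ?_⟩⟩
    have := hgt_le_one (n := n) hw.2
    linarith

lemma GS_one_congr (lt : ℕ → L → Ω) (b : ℕ → L → Prop) {E S S' : Set (ℕ → L)} (hS : S ⊆ E)
    (hS' : S' ⊆ E) (h : sat b E S = sat b E S') : GS lt b E S 1 = GS lt b E S' 1 := by
  unfold GS
  rw [YS_one lt b hS, YS_one lt b hS', h]

variable [TopologicalSpace L]

/-- normal form of the values outside the core -/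
def NF (Z : Sys L Ω) (x : Amb L Ω) (V : Set (Amb L Ω)) : Prop :=
  ∃ (n : ℕ) (a : ℕ → L) (w : ℝ), a ∈ Z.E ∧ 0 < w ∧ w ≤ 1 ∧ x = pt Z.lt n a w ∧
    ((n = 0 ∧ V = GS Z.lt (Z.bl 1 (Z.lt 1 (a 1))) Z.E (Z.S 1 a) 0) ∨
     (1 ≤ n ∧ 1 / 2 ≤ w ∧ V = GS Z.lt (Z.bl n (Z.lt n (a n))) Z.E (Z.S n a) (tent w)) ∨
     (1 ≤ n ∧ w ≤ 1 / 2 ∧ V = GS Z.lt (Z.bl n (Z.lt n (a n))) Z.E (Z.S (n + 1) a) (tent w)))

lemma isVal_cases (Z : Sys L Ω) {x : Amb L Ω} {V : Set (Amb L Ω)} (h : IsVal Z x V) :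
    NF Z x V ∨ ∃ ω : Ω, ∃ r ∈ Icc (0 : ℝ) 1, x = cpt ω r ∧
      V = GS Z.lt (Z.bl ⊤ ω) Z.E Z.E r := by
  rcases h with ⟨a, ha, w, hw, hx, hV⟩ | ⟨n, hn, a, ha, w, hw, hx, hV⟩ |
    ⟨n, hn, a, ha, w, hw, hx, hV⟩ | h
  · left
    rcases hw.1.eq_or_lt with h0 | h0
    · subst h0
      refine ⟨1, a, 1, ha, one_pos, le_rfl, ?_, Or.inr (Or.inl ⟨le_rfl, by norm_num, ?_⟩)⟩
      · rw [hx, pt_zero]
      · rw [hV, GS_zero, tent_one, GS_zero]
    · exact ⟨0, a, w, ha, h0, hw.2, hx, Or.inl ⟨rfl, hV⟩⟩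
  · left
    exact ⟨n, a, w, ha, by linarith [hw.1], hw.2, hx, Or.inr (Or.inl ⟨hn, hw.1, hV⟩)⟩
  · left
    rcases hw.1.eq_or_lt with h0 | h0
    · subst h0
      refine ⟨n + 1, a, 1, ha, one_pos, le_rfl, ?_,
        Or.inr (Or.inl ⟨by omega, by norm_num, ?_⟩)⟩
      · rw [hx, pt_zero]
      · rw [hV, tent_zero, GS_zero, tent_one, GS_zero]
    · exact ⟨n, a, w, ha, h0, by linarith [hw.2], hx, Or.inr (Or.inr ⟨hn, hw.2, hV⟩)⟩
  · right
    exact h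

lemma NF_unique (Z : Sys L Ω) {x : Amb L Ω} {V V' : Set (Amb L Ω)} (h : NF Z x V)
    (h' : NF Z x V') : V = V' := by
  obtain ⟨n, a, w, ha, hw0, hw1, hx, hV⟩ := h
  obtain ⟨n', a', w', ha', hw0', hw1', hx', hV'⟩ := h'
  obtain ⟨rfl, rfl, hag⟩ := pt_inj Z.lt hw0 hw1 hw0' hw1' (hx.symm.trans hx')
  rcases Nat.eq_zero_or_pos n with hn | hn
  · subst hn
    rcases hV with ⟨-, hV⟩ | ⟨h1, -, -⟩ | ⟨h1, -, -⟩
    · rcases hV' with ⟨-, hV'⟩ | ⟨h1, -, -⟩ | ⟨h1, -, -⟩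
      · rw [hV, hV', GS_zero, GS_zero, Z.S_tail 1 a a' le_rfl ha ha' fun j hj => hag j (by omega)]
      · omega
      · omega
    · omega
    · omega
  · have hn1 : 1 ≤ n := hn
    have e1 : a n = a' n := hag n le_rfl
    have e2 : Z.S n a = Z.S n a' := Z.S_tail n a a' hn1 ha ha' hag
    have e3 : Z.S (n + 1) a = Z.S (n + 1) a' :=
      Z.S_tail (n + 1) a a' (by omega) ha ha' fun j hj => hag j (by omega)
    have key : ∀ u : ℝ, u = 1 / 2 →
        GS Z.lt (Z.bl n (Z.lt n (a n))) Z.E (Z.S n a) (tent u) =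
          GS Z.lt (Z.bl n (Z.lt n (a n))) Z.E (Z.S (n + 1) a) (tent u) := by
      intro u hu
      rw [hu, tent_half]
      exact GS_one_congr Z.lt _ (Z.S_sub n a hn1 ha) (Z.S_sub (n + 1) a (by omega) ha)
        (Z.mat n a hn1 ha)
    rcases hV with ⟨h1, -⟩ | ⟨-, h2, hV⟩ | ⟨-, h2, hV⟩
    · omega
    · rcases hV' with ⟨h1, -⟩ | ⟨-, h3, hV'⟩ | ⟨-, h3, hV'⟩
      · omega
      · rw [hV, hV', e1, e2]
      · rw [hV, hV', key w (le_antisymm h3 h2), e1, e3]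
    · rcases hV' with ⟨h1, -⟩ | ⟨-, h3, hV'⟩ | ⟨-, h3, hV'⟩
      · omega
      · rw [hV, hV', ← key w (le_antisymm h2 h3), e1, e2]
      · rw [hV, hV', e1, e3]

lemma isVal_unique (Z : Sys L Ω) {x : Amb L Ω} {V V' : Set (Amb L Ω)} (h : IsVal Z x V)
    (h' : IsVal Z x V') : V = V' := by
  have hpos : ∀ U, NF Z x U → 0 < x.1 := by
    rintro U ⟨n, a, w, -, hw0, -, hx, -⟩
    rw [hx]
    exact hgt_pos hw0.le
  rcases isVal_cases Z h with h1 | ⟨ω, r, hr, hx, hV⟩ <;>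
  rcases isVal_cases Z h' with h2 | ⟨ω', r', hr', hx', hV'⟩
  · exact NF_unique Z h1 h2
  · have := hpos V h1
    rw [hx'] at this
    simp at this
  · have := hpos V' h2
    rw [hx] at this
    simp at this
  · have h3 : cpt (L := L) ω r = cpt ω' r' := hx.symm.trans hx'
    have h4 : ∀ ω'', (if ω'' = ω then r else 0) = (if ω'' = ω' then r' else 0) := fun ω'' => by
      rw [← cpt_star (L := L), h3, cpt_star]
    by_cases h5 : r = 0
    · have h6 : r' = 0 := by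
        have := h4 ω'
        rw [if_pos rfl] at this
        rw [← this, h5]
        simp
      rw [hV, hV', h5, h6, GS_zero, GS_zero]
    · have h6 := h4 ω
      rw [if_pos rfl] at h6
      by_cases h7 : ω = ω'
      · rw [if_pos h7] at h6
        rw [hV, hV', h6, h7]
      · rw [if_neg h7] at h6
        exact absurd h6 h5

end gen

theorem stmtVal : StmtVal := by
  intro L Ω _ _ _ _ _ _ Z x hx
  have hex : ∃ V, IsVal Z x V := by
    rcases hx with ⟨ω, r, hr, hx⟩ | ⟨n, e, he, w, hw, hx⟩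
    · exact ⟨_, Or.inr (Or.inr (Or.inr ⟨ω, r, hr, hx, rfl⟩))⟩
    · rcases Nat.eq_zero_or_pos n with hn | hn
      · subst hn
        exact ⟨_, Or.inl ⟨e, he, w, hw, hx, rfl⟩⟩
      · rcases le_total (1 / 2) w with h | h
        · exact ⟨_, Or.inr (Or.inl ⟨n, hn, e, he, w, ⟨h, hw.2⟩, hx, rfl⟩)⟩
        · exact ⟨_, Or.inr (Or.inr (Or.inl ⟨n, hn, e, he, w, ⟨hw.1, h⟩, hx, rfl⟩))⟩
  obtain ⟨V, hV⟩ := hex
  exact ⟨V, hV, fun V' hV' => isVal_unique Z hV' hV⟩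

lemma gs_ok {L Ω : Type} [DecidableEq L] [DecidableEq Ω] [TopologicalSpace L]
    {lt : ℕ → L → Ω} {b : ℕ → L → Prop} {E S : Set (ℕ → L)} {τ : ℝ}
    (hc : IsCompact (MSet lt E)) (hS : S ⊆ E) (hne : S.Nonempty) (hτ : 0 ≤ τ) :
    (GS lt b E S τ).Nonempty ∧ IsClosed (GS lt b E S τ) ∧ GS lt b E S τ ⊆ MSet lt E := by
  refine ⟨?_, isClosed_closure, ?_⟩
  · obtain ⟨e, he⟩ := hne
    refine ⟨pt lt 0 e 1, subset_closure ⟨0, e, 1, ⟨by norm_num, le_rfl⟩, rfl, ?_,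
      Or.inl ⟨he, ?_⟩⟩⟩
    · intro j h1 h2
      omega
    · rw [hgt_one]
      norm_num
      linarith
  · refine closure_minimal ?_ hc.isClosed
    rintro y ⟨n, e, w, hw, rfl, -, ⟨h, -⟩ | ⟨h, -⟩⟩
    · exact pt_mem lt n (hS h) hw
    · exact pt_mem lt n h.1 hw

theorem stmtValNe (hComp : StmtCompact) : StmtValNe := by
  intro L Ω _ _ _ _ _ _ Z x V hV
  have hc := hComp L Ω Z.lt Z.E Z.E_closed
  rcases hV with ⟨a, ha, w, hw, hx, hV⟩ | ⟨n, hn, a, ha, w, hw, hx, hV⟩ |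
    ⟨n, hn, a, ha, w, hw, hx, hV⟩ | ⟨ω, r, hr, hx, hV⟩
  · rw [hV]
    exact gs_ok hc (Z.S_sub 1 a le_rfl ha) (Z.S_ne 1 a le_rfl ha) le_rfl
  · rw [hV]
    exact gs_ok hc (Z.S_sub n a hn ha) (Z.S_ne n a hn ha)
      (tent_nonneg (by linarith [hw.1]) hw.2)
  · rw [hV]
    exact gs_ok hc (Z.S_sub (n + 1) a (by omega) ha) (Z.S_ne (n + 1) a (by omega) ha)
      (tent_nonneg hw.1 (by linarith [hw.2]))
  · rw [hV]
    exact gs_ok hc subset_rfl Z.E_ne hr.1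

lemma not_mem_GS_zero {L Ω : Type} [DecidableEq L] [DecidableEq Ω]
    {lt : ℕ → L → Ω} {b : ℕ → L → Prop} {E S : Set (ℕ → L)} {x : Amb L Ω} (hx : x.1 ≠ 1) :
    x ∉ GS lt b E S 0 := by
  rw [GS_zero]
  intro h
  have h1 : closure {y : Amb L Ω | ∃ e ∈ S, y = pt lt 0 e 1} ⊆ {y | y.1 = 1} := by
    refine closure_minimal ?_ (isClosed_eq continuous_fst continuous_const)
    rintro y ⟨e, -, rfl⟩
    change hgt 0 1 = 1
    rw [hgt_one]
    norm_num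
  exact hx (h1 h)

/-- no fixed point on the levels `n ≥ 1` -/
lemma not_mem_level {L Ω : Type} [DecidableEq L] [DecidableEq Ω] [TopologicalSpace L]
    (Z : Sys L Ω) {n : ℕ} (hn : 1 ≤ n) {a : ℕ → L} {w : ℝ} (hw : w ∈ Icc (0 : ℝ) 1)
    (S' : Set (ℕ → L)) :
    pt Z.lt n a w ∉ GS Z.lt (Z.bl n (Z.lt n (a n))) Z.E S' (tent w) := by
  have hhgt : (pt Z.lt n a w).1 ≠ 1 := by
    rw [pt_fst]
    have h1 : hgt n w ≤ 1 / 2 ^ n := hgt_le hw.2
    have h2 : (1 : ℝ) / 2 ^ n < 1 := by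
      rw [div_lt_one (by positivity)]
      exact one_lt_pow₀ (by norm_num) (by omega)
    linarith
  rcases hw.1.eq_or_lt with h0 | h0
  · rw [← h0] at hhgt ⊢
    rw [tent_zero]
    exact not_mem_GS_zero hhgt
  rcases hw.2.eq_or_lt with h1 | h1
  · rw [h1] at hhgt ⊢
    rw [tent_one]
    exact not_mem_GS_zero hhgt
  intro hmem
  have hO : IsOpen {z : Amb L Ω | hgt n 0 < z.1 ∧ z.1 < hgt n 1 ∧ 0 < z.2.1 n (a n)} := by
    have h3 : IsOpen {z : Amb L Ω | 0 < z.2.1 n (a n)} :=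
      isOpen_lt continuous_const ((continuous_apply (a n)).comp ((continuous_apply n).comp
        (continuous_fst.comp continuous_snd)))
    have h2 : IsOpen {z : Amb L Ω | z.1 < hgt n 1} := isOpen_lt continuous_fst continuous_const
    have h1 : IsOpen {z : Amb L Ω | hgt n 0 < z.1} := isOpen_lt continuous_const continuous_fst
    exact h1.inter (h2.inter h3)
  obtain ⟨y, hyO, hyY⟩ := mem_closure_iff.1 hmem _ hO (by
    refine ⟨hgt_lt_of_lt h0, hgt_lt_of_lt h1, ?_⟩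
    simp only [pt_wt, if_true, wt_eq]
    exact h0)
  obtain ⟨n', e, w', hw', rfl, hU, -⟩ := hyY
  obtain ⟨h2, h3, h4⟩ := hyO
  rw [pt_fst] at h2 h3
  have hn' : n' = n := by
    rcases lt_trichotomy n' n with h | h | h
    · exfalso
      have := hgt_le_of_level (v := 1) h hw'.1 le_rfl
      linarith
    · exact h
    · exfalso
      have := hgt_le_of_level (w := 0) h le_rfl hw'.2
      linarith
  subst hn'
  rw [pt_wt] at h4
  have h5 : e n' = a n' := by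
    by_contra hne
    rw [if_neg hne] at h4
    exact lt_irrefl _ h4
  apply hU n' hn le_rfl
  rw [h5]
  exact Z.b1 _ _ n' (a n') hn rfl

theorem stmtNoFix : StmtNoFix := by
  intro L Ω _ _ _ _ _ _ Z x V hV
  have : CompactSpace L := Finite.compactSpace
  rcases hV with ⟨a, ha, w, hw, hx, hV⟩ | ⟨n, hn, a, ha, w, hw, hx, hV⟩ |
    ⟨n, hn, a, ha, w, hw, hx, hV⟩ | ⟨ω, r, hr, hx, hV⟩
  · rw [hV, GS_zero]
    have hS : IsClosed (Z.S 1 a) := by
      have h1 : IsClosed {e : ℕ → L | (a, e) ∈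
          {p : (ℕ → L) × (ℕ → L) | p.1 ∈ Z.E ∧ p.2 ∈ Z.S 1 p.1}} :=
        (Z.c1 1 le_rfl).preimage (Continuous.prodMk_right a)
      have h2 : {e : ℕ → L | (a, e) ∈
          {p : (ℕ → L) × (ℕ → L) | p.1 ∈ Z.E ∧ p.2 ∈ Z.S 1 p.1}} = Z.S 1 a := by
        ext e
        exact ⟨fun h => h.2, fun h => ⟨ha, h⟩⟩
      rwa [h2] at h1
    have hcl : IsClosed {y : Amb L Ω | ∃ e ∈ Z.S 1 a, y = pt Z.lt 0 e 1} := by
      have h1 : {y : Amb L Ω | ∃ e ∈ Z.S 1 a, y = pt Z.lt 0 e 1} =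
          (fun e => pt Z.lt 0 e 1) '' Z.S 1 a := by
        ext y
        exact ⟨fun ⟨e, he, hy⟩ => ⟨e, he, hy.symm⟩, fun ⟨e, he, hy⟩ => ⟨e, he, hy.symm⟩⟩
      rw [h1]
      refine (hS.isCompact.image ?_).isClosed
      exact (continuous_pt Z.lt 0).comp (Continuous.prodMk_left (1 : ℝ))
    rw [hcl.closure_eq]
    rintro ⟨e, he, hxe⟩
    rw [hx] at hxe
    rcases hw.1.eq_or_lt with h0 | h0
    · rw [← h0] at hxe
      have h1 : hgt 0 0 = hgt 0 1 := congrArg Prod.fst hxe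
      rw [hgt_zero, hgt_one] at h1
      norm_num at h1
    · obtain ⟨-, -, h2⟩ := pt_inj Z.lt h0 hw.2 one_pos le_rfl hxe
      have h3 : a = e := funext fun j => h2 j (Nat.zero_le _)
      rw [← h3] at he
      exact Z.c6 a ha he
  · rw [hV, hx]
    exact not_mem_level Z hn ⟨by linarith [hw.1], hw.2⟩ _
  · rw [hV, hx]
    exact not_mem_level Z hn ⟨hw.1, by linarith [hw.2]⟩ _
  · rw [hV]
    rcases hr.1.eq_or_lt with h0 | h0
    · rw [← h0]
      apply not_mem_GS_zero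
      rw [hx]
      simp
    · intro hmem
      have hO : IsOpen {z : Amb L Ω | 0 < z.2.2 ω} :=
        isOpen_lt continuous_const ((continuous_apply ω).comp
          (continuous_snd.comp continuous_snd))
      obtain ⟨y, hyO, hyY⟩ := mem_closure_iff.1 hmem _ hO (by
        rw [hx]
        change 0 < (cpt (L := L) ω r).2.2 ω
        rw [cpt_star, if_pos rfl]
        exact h0)
      obtain ⟨n, e, w, hw, rfl, hU, -⟩ := hyY
      change 0 < (pt Z.lt n e w).2.2 ω at hyO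
      rw [pt_star] at hyO
      by_cases hc : 1 ≤ n ∧ Z.lt n (e n) = ω
      · exact hU n hc.1 le_rfl (Z.b1 _ _ n (e n) hc.1 hc.2)
      · rw [if_neg hc] at hyO
        exact lt_irrefl _ hyO

end Pool.Agent.Helper94.LD
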